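import Pool.Agent.N993.WU.Defs

set_option autoImplicit false
set_option linter.all false

/-! Project WU (helper993), part CH (helper667, adapted from helper545's part CH of project WT). -/

namespace Pool.Agent.N667.WU

open Pool.Agent.N993.WU

section gen

variable {V J S : Type} {A : Dat V J S}

/-- the side before a side -/
theorem pre_uu_succ {j : J} {τ : Bool} {i : ℕ} {t : Side J S} (h : A.nx t = .uu j τ (i + 1)) :
    t = .uu j τ i := by
  cases t with
  | uu j' τ' i' =>
    simp only [Dat.nx] at h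
    split_ifs at h
    simp only [Side.uu.injEq] at h
    rw [h.1, h.2.1, Nat.succ_injective h.2.2]
  | up j' τ' k' => simp [Dat.nx] at h
  | vv j' τ' k' i' =>
    simp only [Dat.nx] at h
    split_ifs at h
  | dn j' τ' k' =>
    simp only [Dat.nx] at h
    split_ifs at h
    simp at h
  | st s τ' => simp [Dat.nx] at h
  | lt s τ' i' =>
    simp only [Dat.nx] at h
    split_ifs at h

theorem pre_uu_zero {j : J} {τ : Bool} {t : Side J S} (h : A.nx t = .uu j τ 0) :
    ∃ k, t = .dn j τ k := by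
  cases t with
  | uu j' τ' i' =>
    simp only [Dat.nx] at h
    split_ifs at h
    simp at h
  | up j' τ' k' => simp [Dat.nx] at h
  | vv j' τ' k' i' =>
    simp only [Dat.nx] at h
    split_ifs at h
  | dn j' τ' k' =>
    simp only [Dat.nx] at h
    split_ifs at h
    simp only [Side.uu.injEq] at h
    exact ⟨k', by rw [h.1, h.2.1]⟩
  | st s τ' => simp [Dat.nx] at h
  | lt s τ' i' =>
    simp only [Dat.nx] at h
    split_ifs at h

theorem pre_vv_succ {j : J} {τ : Bool} {k i : ℕ} {t : Side J S} (h : A.nx t = .vv j τ k (i + 1)) :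
    t = .vv j τ k i := by
  cases t with
  | uu j' τ' i' =>
    simp only [Dat.nx] at h
    split_ifs at h
  | up j' τ' k' => simp [Dat.nx] at h
  | vv j' τ' k' i' =>
    simp only [Dat.nx] at h
    split_ifs at h
    simp only [Side.vv.injEq] at h
    rw [h.1, h.2.1, h.2.2.1, Nat.succ_injective h.2.2.2]
  | dn j' τ' k' =>
    simp only [Dat.nx] at h
    split_ifs at h
  | st s τ' => simp [Dat.nx] at h
  | lt s τ' i' =>
    simp only [Dat.nx] at h
    split_ifs at h

theorem pre_vv_zero {j : J} {τ : Bool} {k : ℕ} {t : Side J S} (h : A.nx t = .vv j τ k 0) :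
    t = .up j τ k := by
  cases t with
  | uu j' τ' i' =>
    simp only [Dat.nx] at h
    split_ifs at h
  | up j' τ' k' =>
    simp only [Dat.nx, Side.vv.injEq] at h
    rw [h.1, h.2.1, h.2.2.1]
  | vv j' τ' k' i' =>
    simp only [Dat.nx] at h
    split_ifs at h
    simp at h
  | dn j' τ' k' =>
    simp only [Dat.nx] at h
    split_ifs at h
  | st s τ' => simp [Dat.nx] at h
  | lt s τ' i' =>
    simp only [Dat.nx] at h
    split_ifs at h

theorem pre_dn {j : J} {τ : Bool} {k : ℕ} {t : Side J S} (h : A.nx t = .dn j τ k)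
    (hv : A.Valid t) : t = .vv j τ k (A.lv (A.kap j τ k) - 1) := by
  cases t with
  | uu j' τ' i' =>
    simp only [Dat.nx] at h
    split_ifs at h
  | up j' τ' k' => simp [Dat.nx] at h
  | vv j' τ' k' i' =>
    simp only [Dat.nx] at h
    split_ifs at h with h1
    simp only [Side.dn.injEq] at h
    obtain ⟨rfl, rfl, rfl⟩ := h
    have h2 : i' < A.lv (A.kap j' τ' k') := hv.2
    have h3 : i' = A.lv (A.kap j' τ' k') - 1 := by omega
    rw [← h3]
  | dn j' τ' k' =>
    simp only [Dat.nx] at h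
    split_ifs at h
  | st s τ' => simp [Dat.nx] at h
  | lt s τ' i =>
    simp only [Dat.nx] at h
    split_ifs at h

theorem pre_st {s : S} {τ : Bool} {t : Side J S} (h : A.nx t = .st s τ) :
    ∃ i, t = .lt s τ i := by
  cases t with
  | uu j' τ' i' =>
    simp only [Dat.nx] at h
    split_ifs at h
  | up j' τ' k' => simp [Dat.nx] at h
  | vv j' τ' k' i' =>
    simp only [Dat.nx] at h
    split_ifs at h
  | dn j' τ' k' =>
    simp only [Dat.nx] at h
    split_ifs at h
  | st s τ' => simp [Dat.nx] at h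
  | lt s' τ' i =>
    simp only [Dat.nx] at h
    split_ifs at h
    simp only [Side.st.injEq] at h
    exact ⟨i, by rw [h.1, h.2]⟩

theorem isX_of {t : Side J S} {v : V} {ε : Bool} (h : A.letter t = (Sum.inl v, ε)) : IsX t := by
  cases t with
  | uu j' τ' i' => trivial
  | up j' τ' k' => simp [Dat.letter] at h
  | vv j' τ' k' i' => trivial
  | dn j' τ' k' => simp [Dat.letter] at h
  | st s τ' => simp [Dat.letter] at h
  | lt s' τ' i => trivial

theorem kap_inj (hA : A.Good) {j j' : J} {τ τ' : Bool} {k k' : ℕ} (hk : k < A.c j)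
    (hk' : k' < A.c j') (h : A.kap j' τ' k' = A.kap j τ k) :
    j' = j ∧ ((τ' = τ ∧ k' = k) ∨ (τ' = !τ ∧ k' = A.c j - 1 - k)) := by
  unfold Dat.kap at h
  have h1 : (if τ' = true then k' else A.c j' - 1 - k') < A.c j' := by
    split_ifs <;> omega
  have h2 : (if τ = true then k else A.c j - 1 - k) < A.c j := by
    split_ifs <;> omega
  obtain ⟨e1, e2⟩ := hA.st_inj _ _ _ _ h1 h2 h
  subst e1
  refine ⟨rfl, ?_⟩
  cases τ <;> cases τ' <;> simp at e2 ⊢ <;> omega

variable (N : ND A)

theorem sg_eq (d : N.D) : N.σ d = N.opp (N.nxt.symm d) := rfl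

theorem ty_prev (d : N.D) : A.nx (N.ty (N.nxt.symm d)) = N.ty d := by
  rw [← N.ty_nxt, Equiv.apply_symm_apply]

theorem opp_sg (d : N.D) : N.opp (N.σ d) = N.nxt.symm d := by
  rw [sg_eq, N.opp_opp]

theorem K2 (hA : A.Good) {d : N.D} {j : J} {τ : Bool} {k : ℕ} (h : N.ty (N.nxt.symm d) = .up j τ k) :
    N.ty (N.σ d) = .dn j τ k ∨ ∃ s, N.ty (N.σ d) = .st s true := by
  have h1 := N.letter_opp (N.nxt.symm d)
  have h2 := N.red (N.nxt.symm d)
  have hv := N.valid (N.nxt.symm d)
  have hv' := N.valid (N.σ d)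
  rw [← sg_eq, h] at h1 h2
  rw [h] at hv
  have hk : k < A.c j := hv
  generalize N.ty (N.σ d) = t at h1 h2 hv' ⊢
  cases t with
  | uu j' τ' i' => simp [Dat.letter, Pool.Agent.N993.WT.flip] at h1
  | up j' τ' k' => simp [Dat.letter, Pool.Agent.N993.WT.flip] at h1
  | vv j' τ' k' i' => simp [Dat.letter, Pool.Agent.N993.WT.flip] at h1
  | dn j' τ' k' =>
    have hk' : k' < A.c j' := hv'
    have h3 : A.kap j' τ' k' = A.kap j τ k := by
      simpa [Dat.letter, Pool.Agent.N993.WT.flip] using h1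
    obtain ⟨rfl, ⟨rfl, rfl⟩ | ⟨rfl, rfl⟩⟩ := kap_inj hA hk hk' h3
    · exact Or.inl rfl
    · exact absurd rfl h2
  | st s τ' =>
    have h3 : τ' = true := by
      have := congrArg Prod.snd h1
      simpa [Dat.letter, Pool.Agent.N993.WT.flip] using this
    exact Or.inr ⟨s, by rw [h3]⟩
  | lt s' τ' i => simp [Dat.letter, Pool.Agent.N993.WT.flip] at h1

theorem K1 (hA : A.Good) {d : N.D} {j : J} {τ : Bool} {k : ℕ} (h : N.ty (N.nxt.symm d) = .dn j τ k) :
    N.ty (N.σ d) = .up j τ k ∨ ∃ s, N.ty (N.σ d) = .st s false := by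
  have h1 := N.letter_opp (N.nxt.symm d)
  have h2 := N.red (N.nxt.symm d)
  have hv := N.valid (N.nxt.symm d)
  have hv' := N.valid (N.σ d)
  rw [← sg_eq, h] at h1 h2
  rw [h] at hv
  have hk : k < A.c j := hv
  generalize N.ty (N.σ d) = t at h1 h2 hv' ⊢
  cases t with
  | uu j' τ' i' => simp [Dat.letter, Pool.Agent.N993.WT.flip] at h1
  | dn j' τ' k' => simp [Dat.letter, Pool.Agent.N993.WT.flip] at h1
  | vv j' τ' k' i' => simp [Dat.letter, Pool.Agent.N993.WT.flip] at h1
  | up j' τ' k' =>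
    have hk' : k' < A.c j' := hv'
    have h3 : A.kap j' τ' k' = A.kap j τ k := by
      simpa [Dat.letter, Pool.Agent.N993.WT.flip] using h1
    obtain ⟨rfl, ⟨rfl, rfl⟩ | ⟨rfl, rfl⟩⟩ := kap_inj hA hk hk' h3
    · exact Or.inl rfl
    · exact absurd rfl h2
  | st s τ' =>
    have h3 : τ' = false := by
      have := congrArg Prod.snd h1
      simpa [Dat.letter, Pool.Agent.N993.WT.flip] using this
    exact Or.inr ⟨s, by rw [h3]⟩
  | lt s' τ' i => simp [Dat.letter, Pool.Agent.N993.WT.flip] at h1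

/-- the first exponent with an `x`-dart -/
theorem uniq {d : N.D} {r r' : ℕ} (h1 : ∀ i, 0 < i → i ≤ r → ¬ IsX (N.ty ((N.σ ^ i) d)))
    (h2 : IsX (N.ty ((N.σ ^ (r + 1)) d))) (h1' : ∀ i, 0 < i → i ≤ r' → ¬ IsX (N.ty ((N.σ ^ i) d)))
    (h2' : IsX (N.ty ((N.σ ^ (r' + 1)) d))) : r = r' := by
  rcases lt_trichotomy r r' with h | h | h
  · exact absurd h2 (h1' (r + 1) (by omega) (by omega))
  · exact h
  · exact absurd h2' (h1 (r' + 1) (by omega) (by omega))

theorem sg_two (d : N.D) : (N.σ ^ 2) d = N.σ (N.σ d) := by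
  rw [pow_two, Equiv.Perm.mul_apply]

/-- the case that the next dart is an `x`-dart -/
theorem one {d : N.D} {t : Side J S} (h2 : N.ty (N.nxt.symm d) = t) {v : V} {ε : Bool}
    (h3 : A.letter t = (Sum.inl v, ε))
    {r : ℕ} (h4 : ∀ i, 0 < i → i ≤ r → ¬ IsX (N.ty ((N.σ ^ i) d)))
    (h5 : IsX (N.ty ((N.σ ^ (r + 1)) d))) : N.ty (N.opp ((N.σ ^ (r + 1)) d)) = t := by
  have h6 : r = 0 := by
    refine uniq N h4 h5 (fun i hi hi' => ?_) ?_
    · omega
    · rw [zero_add, pow_one]
      have h7 := N.letter_opp (N.nxt.symm d)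
      rw [← sg_eq, h2, h3] at h7
      exact isX_of h7
  rw [h6, zero_add, pow_one, opp_sg, h2]

/-- the case that the next dart but one is an `x`-dart -/
theorem two {d : N.D} {t : Side J S} (h1 : ¬ IsX (N.ty (N.σ d)))
    (h2 : N.ty (N.nxt.symm (N.σ d)) = t) {v : V} {ε : Bool} (h3 : A.letter t = (Sum.inl v, ε))
    {r : ℕ} (h4 : ∀ i, 0 < i → i ≤ r → ¬ IsX (N.ty ((N.σ ^ i) d)))
    (h5 : IsX (N.ty ((N.σ ^ (r + 1)) d))) : N.ty (N.opp ((N.σ ^ (r + 1)) d)) = t := by
  have h6 : r = 1 := by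
    refine uniq N h4 h5 (fun i hi hi' => ?_) ?_
    · have : i = 1 := by omega
      rw [this, pow_one]
      exact h1
    · have e : (1 + 1 : ℕ) = 2 := rfl
      rw [e, sg_two]
      have h7 := N.letter_opp (N.nxt.symm (N.σ d))
      rw [← sg_eq, h2, h3] at h7
      exact isX_of h7
  rw [h6]
  have e : (1 + 1 : ℕ) = 2 := rfl
  rw [e, sg_two, opp_sg, h2]

end gen

theorem t_ch (hD : S_DOWN) : S_CH := by
  intro V J S A N hA d r hX h1 h2 hQ hQ'
  cases hd : N.ty d with
  | vv j τ k i =>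
    rcases i with _ | i
    · have hp : N.ty (N.nxt.symm d) = .up j τ k := pre_vv_zero (by rw [ty_prev, hd])
      rcases K2 N hA hp with h | ⟨s, h⟩
      · have hp2 : N.ty (N.nxt.symm (N.σ d)) = .vv j τ k (A.lv (A.kap j τ k) - 1) :=
          pre_dn (by rw [ty_prev, h]) (N.valid _)
        have h3 := two N (by rw [h]; exact fun h => h) hp2 rfl h1 h2
        rw [h3]
        rfl
      · exfalso
        obtain ⟨i, hp2⟩ := pre_st (A := A) (t := N.ty (N.nxt.symm (N.σ d))) (by rw [ty_prev, h])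
        have h3 := two N (by rw [h]; exact fun h => h) hp2 rfl h1 h2
        rw [h3] at hQ'
        exact hQ'
    · have hp : N.ty (N.nxt.symm d) = .vv j τ k i := pre_vv_succ (by rw [ty_prev, hd])
      have h3 := one N hp rfl h1 h2
      rw [h3]
      rfl
  | uu j τ i =>
    rcases i with _ | i
    · obtain ⟨k, hp⟩ := pre_uu_zero (A := A) (t := N.ty (N.nxt.symm d)) (by rw [ty_prev, hd])
      rcases K1 N hA hp with h | ⟨s, h⟩
      · obtain ⟨r', g1, g2, g3⟩ := hD V J S A N hA j τ k (N.σ d) h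
        have e : ∀ i, (N.σ ^ i) (N.σ d) = (N.σ ^ (i + 1)) d := by
          intro i
          rw [pow_succ, Equiv.Perm.mul_apply]
        have h6 : r = r' + 1 := by
          refine uniq N h1 h2 (fun i hi hi' => ?_) ?_
          · obtain ⟨i, rfl⟩ : ∃ i', i = i' + 1 := ⟨i - 1, by omega⟩
            rw [← e]
            exact g1 i (by omega)
          · rw [← e]
            exact g2
        rw [e, ← h6] at g3
        rcases g3 with g3 | ⟨-, s, τ', i, g3⟩
        · rw [g3]
          rfl
        · exfalso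
          rw [g3] at hQ'
          exact hQ'
      · exfalso
        obtain ⟨i, hp2⟩ := pre_st (A := A) (t := N.ty (N.nxt.symm (N.σ d))) (by rw [ty_prev, h])
        have h3 := two N (by rw [h]; exact fun h => h) hp2 rfl h1 h2
        rw [h3] at hQ'
        exact hQ'
    · have hp : N.ty (N.nxt.symm d) = .uu j τ i := pre_uu_succ (by rw [ty_prev, hd])
      have h3 := one N hp rfl h1 h2
      rw [h3]
      rfl
  | up j τ k => exfalso; rw [hd] at hQ; exact hQ
  | dn j τ k => exfalso; rw [hd] at hQ; exact hQ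
  | st s τ => exfalso; rw [hd] at hQ; exact hQ
  | lt s τ i => exfalso; rw [hd] at hQ; exact hQ

end Pool.Agent.N667.WU
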